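import Mathlib

/-! The computation behind the cyclicity of the relation module of
`⟨a, t | a^(pq), [a^p, t a^q t⁻¹]⟩`, `p`, `q` coprime. -/

set_option autoImplicit false

namespace Pool.Agent.Y825.CR

open Finset

section ring
variable {R : Type*} [CommRing R]

/-- `1 + x + ... + x^(n-1)` -/
def gs (x : R) (n : ℕ) : R := ∑ i ∈ range n, x ^ i

lemma gs_zero (x : R) : gs x 0 = 0 := by simp [gs]

lemma gs_succ (x : R) (n : ℕ) : gs x (n + 1) = gs x n + x ^ n := by simp [gs, sum_range_succ]

lemma gs_succ' (x : R) (n : ℕ) : gs x (n + 1) = 1 + x * gs x n := by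
  induction n with
  | zero => simp [gs]
  | succ n ih =>
    rw [gs_succ x n] at ih
    rw [gs_succ x (n + 1), gs_succ x n]
    linear_combination ih

lemma gs_mul (x : R) (n : ℕ) : (x - 1) * gs x n = x ^ n - 1 := by
  induction n with
  | zero => simp [gs]
  | succ n ih => rw [gs_succ, mul_add, ih]; ring

/-- `∑_{k < p} (1 + ... + x^(k-1)) y^k` -/
def Asum (x y : R) (p : ℕ) : R := ∑ k ∈ range p, gs x k * y ^ k

lemma Asum_succ (x y : R) (p : ℕ) : Asum x y (p + 1) = Asum x y p + gs x p * y ^ p := by
  simp [Asum, sum_range_succ]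

lemma Asum_mul (x y : R) (p : ℕ) :
    (x * y - 1) * Asum x y p = gs x p * y ^ p - y * gs y p := by
  induction p with
  | zero => simp [Asum, gs]
  | succ p ih =>
    rw [Asum_succ, mul_add, ih, gs_succ' x p, gs_succ y p]
    ring

lemma gs_gs (x : R) (p i : ℕ) : gs (x ^ p) i * gs x p = gs x (i * p) := by
  induction i with
  | zero => simp [gs]
  | succ i ih =>
    rw [gs_succ, add_mul, ih]
    have : (i + 1) * p = i * p + p := by ring
    rw [this]
    simp only [gs, sum_range_add, mul_sum]
    congr 1
    refine sum_congr rfl fun l _ => ?_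
    rw [pow_add, ← pow_mul, mul_comm p i]

lemma mul_gs_of_pow (x : R) (q : ℕ) (hx : x ^ q = 1) : x * gs x q = gs x q := by
  have h := gs_mul x q
  rw [hx] at h
  linear_combination h

lemma pow_mul_gs_of_pow (x : R) (q : ℕ) (hx : x ^ q = 1) (n : ℕ) : x ^ n * gs x q = gs x q := by
  induction n with
  | zero => simp
  | succ n ih => rw [pow_succ', mul_assoc, ih, mul_gs_of_pow x q hx]

lemma gs_mul_period (x : R) (q : ℕ) (hx : x ^ q = 1) (j : ℕ) : gs x (j * q) = j * gs x q := by
  induction j with
  | zero => simp [gs]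
  | succ j ih =>
    have : (j + 1) * q = j * q + q := by ring
    rw [this]
    have h2 : gs x (j * q + q) = gs x (j * q) + x ^ (j * q) * gs x q := by
      simp only [gs, sum_range_add, mul_sum]
      congr 1
      refine sum_congr rfl fun l _ => ?_
      rw [pow_add]
    rw [h2, ih, pow_mul_gs_of_pow x q hx]
    push_cast
    ring

lemma gs_sq (y : R) (p : ℕ) (hy : y ^ p = 1) : gs y p * gs y p = p * gs y p := by
  have : gs y p * gs y p = ∑ n ∈ range p, y ^ n * gs y p := by
    rw [← sum_mul]; rfl
  rw [this, sum_congr rfl fun n _ => pow_mul_gs_of_pow y p hy n]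
  simp

end ring

section module
variable {R M : Type*} [CommRing R] [AddCommGroup M] [Module R M]

lemma gs_smul_fixed (x : R) (α : M) (h : x • α = α) (n : ℕ) : gs x n • α = (n : R) • α := by
  induction n with
  | zero => simp [gs]
  | succ n ih =>
    have hp : ∀ m : ℕ, x ^ m • α = α := by
      intro m
      induction m with
      | zero => simp
      | succ m ihm => rw [pow_succ, mul_smul, h, ihm]
    rw [gs_succ, add_smul, ih, hp n]
    push_cast
    rw [add_smul, one_smul]

/-- The key computation: the only solution of the relations with `δ = 0` is zero. -/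
theorem core (x y : R) (α β γ : M) (p q i j : ℕ) (hij : i * p = 1 + j * q)
    (hx : x ^ q = 1) (hy : y ^ p = 1) (hxα : x • α = α) (hyβ : y • β = β)
    (h3 : (1 - y) • α = gs x q • γ) (h4 : (x - 1) • β = gs y p • γ)
    (hδ : Asum x y p • γ + β + ((j : R) * (gs y p - p)) • α = 0)
    (ht : ∀ n : ℕ, (n : R) • β = 0 → (n : R) • α = 0) : α = 0 ∧ γ = 0 := by
  have hyN : y * gs y p = gs y p := mul_gs_of_pow y p hy
  have hNN : gs y p * gs y p = p * gs y p := gs_sq y p hy
  have hA := Asum_mul x y p
  rw [hy, hyN, mul_one] at hA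
  -- κ = (xy - 1) [i]_{x^p}
  have hk : gs (x ^ p) i * gs x p = 1 + j * gs x q := by
    rw [gs_gs, hij, add_comm, gs_succ', gs_mul_period x q hx]
    have := mul_gs_of_pow x q hx
    linear_combination (j : R) * this
  have hxp : (x ^ p) • α = α := by
    have : ∀ m : ℕ, x ^ m • α = α := by
      intro m
      induction m with
      | zero => simp
      | succ m ihm => rw [pow_succ, mul_smul, hxα, ihm]
    exact this p
  have hcβ : (x * y - 1) • β = gs y p • γ := by
    rw [← h4, sub_smul, mul_smul, hyβ, sub_smul]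
  have hcα : (x * y - 1) • α = (y - 1) • α := by
    rw [mul_comm, sub_smul, mul_smul, hxα, sub_smul]
  -- γ = - j (1 + i p) (1 - y) α
  have hγ : γ + ((j : R) * (1 + i * p) * (1 - y)) • α = 0 := by
    have h5 := congrArg (fun m => (gs (x ^ p) i * (x * y - 1)) • m) hδ
    simp only [smul_add, smul_zero, ← mul_smul] at h5
    have e1 : (gs (x ^ p) i * (x * y - 1) * Asum x y p) • γ =
        (1 + (j : R) * gs x q) • γ - (gs (x ^ p) i * gs y p) • γ := by
      rw [← sub_smul]
      congr 1
      linear_combination gs (x ^ p) i * hA + hk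
    have e2 : (gs (x ^ p) i * (x * y - 1)) • β = (gs (x ^ p) i * gs y p) • γ := by
      rw [mul_smul, hcβ, ← mul_smul]
    have e3 : (gs (x ^ p) i * (x * y - 1) * ((j : R) * (gs y p - p))) • α =
        ((j : R) * (i * p) * (1 - y)) • α := by
      have r1 : gs (x ^ p) i * (x * y - 1) * ((j : R) * (gs y p - p)) =
          ((j : R) * (gs y p - p)) * ((x * y - 1) * gs (x ^ p) i) := by ring
      rw [r1, mul_smul _ ((x * y - 1) * gs (x ^ p) i) α, mul_smul (x * y - 1) _ α,
        gs_smul_fixed (x ^ p) α hxp i, smul_comm (x * y - 1), hcα, ← mul_smul, ← mul_smul]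
      congr 1
      linear_combination ((j : R) * i) * hyN
    rw [e1, e2, e3] at h5
    have e4 : (1 + (j : R) * gs x q) • γ = γ + ((j : R) * (1 - y)) • α := by
      rw [add_smul, one_smul, mul_smul, ← h3, ← mul_smul]
    rw [e4] at h5
    rw [← h5]
    have e5 : (j : R) * (1 + i * p) * (1 - y) = (j : R) * (1 - y) + (j : R) * (i * p) * (1 - y) := by
      ring
    rw [e5, add_smul]
    abel
  -- (1 - y) A α = (N - p) α
  have hAα : ((1 - y) * Asum x y p) • α = (gs y p - p) • α := by
    have h6 : ((x * y - 1) * Asum x y p) • α = ((y - 1) * Asum x y p) • α := by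
      rw [mul_comm, mul_smul, hcα, ← mul_smul, mul_comm]
    rw [hA, sub_smul, gs_smul_fixed x α hxα p, ← sub_smul] at h6
    have e6 : (1 - y) * Asum x y p = -((y - 1) * Asum x y p) := by ring
    rw [e6, neg_smul, ← h6, ← neg_smul]
    congr 1
    ring
  -- β = j i p (N - p) α
  have hβ : β = ((j : R) * i * p * (gs y p - p)) • α := by
    have hγ' : γ = -(((j : R) * (1 + i * p) * (1 - y)) • α) := eq_neg_of_add_eq_zero_left hγ
    rw [hγ', smul_neg, ← mul_smul] at hδ
    have e7 : (Asum x y p * ((j : R) * (1 + i * p) * (1 - y))) • α =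
        ((j : R) * (1 + i * p) * (gs y p - p)) • α := by
      have : Asum x y p * ((j : R) * (1 + i * p) * (1 - y)) =
          ((j : R) * (1 + i * p)) * ((1 - y) * Asum x y p) := by ring
      rw [this, mul_smul, hAα, ← mul_smul]
    rw [e7] at hδ
    have e8 : β = ((j : R) * (1 + i * p) * (gs y p - p)) • α - ((j : R) * (gs y p - p)) • α := by
      rw [← sub_eq_zero]
      rw [← hδ]
      abel
    rw [e8, ← sub_smul]
    congr 1
    ring
  have hpβ : (p : R) • β = 0 := by
    have h7 : gs y p • β = (p : R) • β := gs_smul_fixed y β hyβ p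
    rw [← h7, hβ, ← mul_smul]
    have : gs y p * ((j : R) * i * p * (gs y p - p)) = 0 := by
      linear_combination ((j : R) * i * p) * hNN
    rw [this, zero_smul]
  have hpα := ht p hpβ
  have hβ0 : β = 0 := by
    rw [hβ]
    have : (j : R) * i * p * (gs y p - p) = ((j : R) * i * (gs y p - p)) * p := by ring
    rw [this, mul_smul, hpα, smul_zero]
  have hα0 : α = 0 := by
    have := ht 1 (by rw [hβ0, smul_zero])
    simpa using this
  refine ⟨hα0, ?_⟩
  rw [hα0, smul_zero, add_zero] at hγ
  exact hγ

end module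

section noncomm
variable {S M : Type*} [Ring S] [AddCommGroup M] [Module S M]

/-- The same over a noncommutative ring, for commuting `x` and `y`. -/
theorem core' (x y : S) (hxy : x * y = y * x) (α β γ : M) (p q i j : ℕ) (hij : i * p = 1 + j * q)
    (hx : x ^ q = 1) (hy : y ^ p = 1) (hxα : x • α = α) (hyβ : y • β = β)
    (h3 : α - y • α = (∑ k ∈ range q, x ^ k) • γ)
    (h4 : x • β - β = (∑ k ∈ range p, y ^ k) • γ)
    (hδ : (∑ k ∈ range p, (∑ l ∈ range k, x ^ l) * y ^ k) • γ + β +
      ((j : S) * ((∑ k ∈ range p, y ^ k) - p)) • α = 0)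
    (ht : ∀ n : ℕ, (n : S) • β = 0 → (n : S) • α = 0) : α = 0 ∧ γ = 0 := by
  have hc : ∀ a ∈ ({x, y} : Set S), ∀ b ∈ ({x, y} : Set S), a * b = b * a := by
    rintro a (rfl | rfl) b (rfl | rfl)
    · rfl
    · exact hxy
    · exact hxy.symm
    · rfl
  letI : CommRing (Subring.closure ({x, y} : Set S)) := Subring.closureCommRingOfComm hc
  let X : Subring.closure ({x, y} : Set S) := ⟨x, Subring.subset_closure (by simp)⟩
  let Y : Subring.closure ({x, y} : Set S) := ⟨y, Subring.subset_closure (by simp)⟩
  have hsm : ∀ (r : Subring.closure ({x, y} : Set S)) (m : M), r • m = (r : S) • m := fun _ _ => rfl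
  have hN : ∀ (n : ℕ), ((n : Subring.closure ({x, y} : Set S)) : S) = n := fun n => by
    exact map_natCast (Subring.closure ({x, y} : Set S)).subtype n
  have hXY : ∀ (n : ℕ), ((gs X n : Subring.closure ({x, y} : Set S)) : S) =
      ∑ k ∈ range n, x ^ k := by
    intro n
    have := map_sum (Subring.closure ({x, y} : Set S)).subtype (fun k => X ^ k) (range n)
    refine this.trans ?_
    exact sum_congr rfl fun k _ => map_pow (Subring.closure ({x, y} : Set S)).subtype X k
  have hYY : ∀ (n : ℕ), ((gs Y n : Subring.closure ({x, y} : Set S)) : S) =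
      ∑ k ∈ range n, y ^ k := by
    intro n
    have := map_sum (Subring.closure ({x, y} : Set S)).subtype (fun k => Y ^ k) (range n)
    refine this.trans ?_
    exact sum_congr rfl fun k _ => map_pow (Subring.closure ({x, y} : Set S)).subtype Y k
  refine core X Y α β γ p q i j hij ?_ ?_ ?_ ?_ ?_ ?_ ?_ ?_
  · exact Subtype.ext ((map_pow (Subring.closure ({x, y} : Set S)).subtype X q).trans hx)
  · exact Subtype.ext ((map_pow (Subring.closure ({x, y} : Set S)).subtype Y p).trans hy)
  · exact hxα
  · exact hyβ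
  · rw [sub_smul, one_smul, hsm, hsm, hXY]
    exact h3
  · rw [sub_smul, one_smul, hsm, hsm, hYY]
    exact h4
  · rw [hsm, hsm]
    have e1 : ((Asum X Y p : Subring.closure ({x, y} : Set S)) : S) =
        ∑ k ∈ range p, (∑ l ∈ range k, x ^ l) * y ^ k := by
      have := map_sum (Subring.closure ({x, y} : Set S)).subtype (fun k => gs X k * Y ^ k) (range p)
      refine this.trans ?_
      refine sum_congr rfl fun k _ => ?_
      refine (map_mul (Subring.closure ({x, y} : Set S)).subtype _ _).trans ?_
      rw [← hXY k]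
      congr 1
    have e2 : (((j : Subring.closure ({x, y} : Set S)) * (gs Y p - p) :
        Subring.closure ({x, y} : Set S)) : S) = (j : S) * ((∑ k ∈ range p, y ^ k) - p) := by
      refine (map_mul (Subring.closure ({x, y} : Set S)).subtype _ _).trans ?_
      rw [← hYY p, ← hN p]
      congr 1
    rw [e1, e2]
    exact hδ
  · intro n hn
    rw [hsm, hN] at hn ⊢
    exact ht n hn

end noncomm

end Pool.Agent.Y825.CR
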