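import Pool.Agent.Y825.CR.Rel

/-! `⟨a, t | a^(pq), [a^p, t a^q t⁻¹]⟩` is not a one-relator group (`p`, `q ≥ 2`), and the order of
torsion elements in the abelianization distinguishes these groups. -/

set_option autoImplicit false

namespace Pool.Agent.Y825.CR

open Pool.Agent.Results.MP_8396f3_al.CyclicNotOneRelator

universe v

variable (p q : ℕ)

noncomputable def gaP : Gpq p q := PresentedGroup.of 0
noncomputable def gtP : Gpq p q := PresentedGroup.of 1

/-- Homomorphisms into a group: `a ↦ u`, `t ↦ w`, when `u^(pq) = 1` and `u^p` commutes with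
`w u^q w⁻¹`. -/
noncomputable def homPQ {H : Type} [Group H] (u w : H) (h1 : u ^ (p * q) = 1)
    (h2 : u ^ p * (w * u ^ q * w⁻¹) * (u ^ p)⁻¹ * (w * u ^ q * w⁻¹)⁻¹ = 1) : Gpq p q →* H :=
  PresentedGroup.toGroup (f := ![u, w]) (by
    rintro r (rfl | rfl)
    · simpa using h1
    · simpa using h2)

lemma homPQ_a {H : Type} [Group H] (u w : H) (h1 h2) : homPQ p q u w h1 h2 (gaP p q) = u := by
  simp [homPQ, gaP]

lemma homPQ_t {H : Type} [Group H] (u w : H) (h1 h2) : homPQ p q u w h1 h2 (gtP p q) = w := by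
  simp [homPQ, gtP]

lemma gaP_pow : gaP p q ^ (p * q) = 1 := by
  have h : PresentedGroup.mk (relsPQ p q) (A ^ (p * q)) = 1 :=
    (QuotientGroup.eq_one_iff _).mpr (Subgroup.subset_normalClosure (Or.inl rfl))
  rw [map_pow] at h
  exact h

lemma relP_comm : gaP p q ^ p * (gtP p q * gaP p q ^ q * (gtP p q)⁻¹) =
    (gtP p q * gaP p q ^ q * (gtP p q)⁻¹) * gaP p q ^ p := by
  have h : PresentedGroup.mk (relsPQ p q)
      (A ^ p * (T * A ^ q * T⁻¹) * (A ^ p)⁻¹ * (T * A ^ q * T⁻¹)⁻¹) = 1 :=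
    (QuotientGroup.eq_one_iff _).mpr (Subgroup.subset_normalClosure (Or.inr rfl))
  simp only [map_mul, map_inv, map_pow] at h
  exact mul_inv_eq_iff_eq_mul.mp (mul_inv_eq_one.mp h)

lemma closure_gen (S : Subgroup (Gpq p q)) (ha : gaP p q ∈ S) (ht : gtP p q ∈ S) (g : Gpq p q) :
    g ∈ S := by
  have h1 : Subgroup.closure (Set.range (PresentedGroup.of (rels := relsPQ p q))) ≤ S := by
    rw [Subgroup.closure_le]
    rintro _ ⟨i, rfl⟩
    fin_cases i
    · exact ha
    · exact ht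
  apply h1
  rw [PresentedGroup.closure_range_of]
  exact Subgroup.mem_top g

lemma comm_rel {H : Type} [CommGroup H] (u w : H) :
    u ^ p * (w * u ^ q * w⁻¹) * (u ^ p)⁻¹ * (w * u ^ q * w⁻¹)⁻¹ = 1 := by
  rw [mul_inv_eq_one, mul_comm (u ^ p), mul_inv_cancel_right]

section root
variable {p q}

lemma pq_ne {p q : ℕ} (hp : 2 ≤ p) (hq : 2 ≤ q) : p * q ≠ 0 :=
  Nat.mul_ne_zero (by omega) (by omega)

/-- a primitive `n`-th root of unity as a unit -/
noncomputable def zt (n : ℕ) : ℂˣ :=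
  Units.mk0 (Complex.exp (2 * Real.pi * Complex.I / n)) (Complex.exp_ne_zero _)

lemma zt_prim (n : ℕ) (hn : n ≠ 0) : IsPrimitiveRoot (zt n) n := by
  have := Complex.isPrimitiveRoot_exp n hn
  rw [← IsPrimitiveRoot.coe_units_iff]
  exact this

noncomputable def chiP (hp : 2 ≤ p) (hq : 2 ≤ q) : Gpq p q →* ℂˣ :=
  homPQ p q (zt (p * q)) 1 (zt_prim (p * q) (pq_ne hp hq)).pow_eq_one (comm_rel p q _ _)

lemma chiP_a (hp : 2 ≤ p) (hq : 2 ≤ q) : chiP hp hq (gaP p q) = zt (p * q) := homPQ_a p q _ _ _ _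
lemma chiP_t (hp : 2 ≤ p) (hq : 2 ≤ q) : chiP hp hq (gtP p q) = 1 := homPQ_t p q _ _ _ _

lemma fixed_pointP (hp : 2 ≤ p) (hq : 2 ≤ q) (B : Gpq p q →* Equiv.Perm ℂ)
    (hB : ∀ g, ∃ d : ℂ, ∀ z, B g z = (((chiP hp hq g)⁻¹ : ℂˣ) : ℂ) * (z + d)) :
    ∃ z, ∀ g, B g z = z := by
  have hn : p * q ≠ 0 := pq_ne hp hq
  have hprim := zt_prim (p * q) hn
  obtain ⟨da, hda⟩ := hB (gaP p q)
  obtain ⟨dt, hdt⟩ := hB (gtP p q)
  set ω : ℂ := (((zt (p * q))⁻¹ : ℂˣ) : ℂ) with hω
  have hωn : ∀ m : ℕ, 0 < m → m < p * q → ω ^ m ≠ 1 := by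
    intro m hm0 hm h
    have h1 : (zt (p * q))⁻¹ ^ m = 1 := by
      ext
      rw [Units.val_pow_eq_pow_val]
      exact h
    exact (hprim.inv.pow_ne_one_of_pos_of_lt hm0.ne' hm) h1
  have ha : ∀ z, B (gaP p q) z = ω * (z + da) := by
    intro z
    rw [hda, chiP_a]
  have ht : ∀ z, B (gtP p q) z = z + dt := by
    intro z
    rw [hdt, chiP_t]
    simp
  have hti : ∀ z, (B (gtP p q))⁻¹ z = z - dt := by
    intro z
    rw [Equiv.Perm.inv_eq_iff_eq, ht]
    ring
  have hpq : p < p * q := by nlinarith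
  have hqp : q < p * q := by nlinarith
  have hω1 : 1 - ω ≠ 0 := by
    intro h
    have := hωn 1 one_pos (by omega)
    rw [pow_one] at this
    exact this (by linear_combination -h)
  set z0 : ℂ := ω * da / (1 - ω) with hz0
  have hz : ω * (z0 + da) = z0 := by
    rw [hz0]
    field_simp
    ring
  have hpow : ∀ (n : ℕ) (z : ℂ), (B (gaP p q) ^ n) z = ω ^ n * (z - z0) + z0 := by
    intro n
    induction n with
    | zero => intro z; simp
    | succ n ih =>
      intro z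
      rw [pow_succ', Equiv.Perm.mul_apply, ih, ha]
      linear_combination hz
  have h1 := congrArg (fun g => B g z0) (relP_comm p q)
  simp only [map_mul, map_inv, map_pow, Equiv.Perm.mul_apply, hpow, ht, hti] at h1
  have h2 : (ω ^ p - 1) * (1 - ω ^ q) * dt = 0 := by linear_combination h1
  have h3 := hωn p (by omega) hpq
  have h4 := hωn q (by omega) hqp
  have hdt0 : dt = 0 := by
    rcases mul_eq_zero.mp h2 with h | h
    · rcases mul_eq_zero.mp h with h | h
      · exact absurd (by linear_combination h) h3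
      · exact absurd (by linear_combination -h) h4
    · exact h
  refine ⟨z0, fun g => ?_⟩
  let S : Subgroup (Gpq p q) :=
    { carrier := {g | B g z0 = z0}
      one_mem' := by simp
      mul_mem' := by
        intro x y hx hy
        simp only [Set.mem_ofPred_eq] at hx hy ⊢
        rw [map_mul, Equiv.Perm.mul_apply, hy, hx]
      inv_mem' := by
        intro x hx
        simp only [Set.mem_ofPred_eq] at hx ⊢
        rw [map_inv, Equiv.Perm.inv_eq_iff_eq, hx] }
  exact closure_gen p q S (by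
    change B (gaP p q) z0 = z0
    rw [ha, hz]) (by
    change B (gtP p q) z0 = z0
    rw [ht, hdt0, add_zero]) g

lemma noncommP (hp : 2 ≤ p) : ∃ x y : Gpq p q, x * y ≠ y * x := by
  have hprim := zt_prim p (by omega)
  let u : Equiv.Perm ℂ := MulAction.toPermHom ℂˣ ℂ (zt p)
  let w : Equiv.Perm ℂ := Equiv.addRight 1
  have hu : u ^ p = 1 := by
    change (MulAction.toPermHom ℂˣ ℂ (zt p)) ^ p = 1
    rw [← map_pow, hprim.pow_eq_one, map_one]
  let φ : Gpq p q →* Equiv.Perm ℂ := homPQ p q u w (by rw [pow_mul, hu, one_pow]) (by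
    rw [hu]; group)
  refine ⟨gaP p q, gtP p q, fun h => ?_⟩
  have h1 := congrArg (fun g => φ g 0) h
  simp only [map_mul, φ, homPQ_a, homPQ_t, Equiv.Perm.mul_apply] at h1
  have h2 : (zt p : ℂ) = 1 := by
    have e1 : u (w 0) = (zt p : ℂ) := by
      change (zt p : ℂ) * (0 + 1) = _
      ring
    have e2 : w (u 0) = 1 := by
      change (zt p : ℂ) * 0 + 1 = 1
      ring
    rw [← e1, h1, e2]
  have h3 : zt p = 1 := Units.ext h2
  rw [h3] at hprim
  have := hprim.unique (IsPrimitiveRoot.one)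
  omega

/-- The group `⟨a, t | a^(pq), [a^p, t a^q t⁻¹]⟩` is not a one-relator group. -/
theorem notOneRelatorPQ (hp : 2 ≤ p) (hq : 2 ≤ q) : ¬ IsOneRelatorGroup.{0, v} (Gpq p q) := by
  rintro ⟨X, r, ⟨e⟩⟩
  refine Pool.Agent.Helper246.NotOneRel.criterion (k := ℂ) (chiP hp hq) (gaP p q) (p * q)
    (pq_ne hp hq) (gaP_pow p q) ?_ (fun B hB => fixed_pointP hp hq B hB) (noncommP hp) r e
  rw [chiP_a]
  intro h
  have hprim := zt_prim (p * q) (pq_ne hp hq)
  rw [h] at hprim
  have h1 := hprim.unique (IsPrimitiveRoot.one)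
  nlinarith

end root

/-- Torsion in the abelianization. -/
lemma dvd_of_iso {p q p' q' : ℕ} (hp : 2 ≤ p) (hq : 2 ≤ q) (e : Gpq p q ≃* Gpq p' q') :
    p * q ∣ p' * q' := by
  have hprim := zt_prim (p * q) (pq_ne hp hq)
  let χ : Gpq p' q' →* ℂˣ := (chiP hp hq).comp e.symm.toMonoidHom
  let τ : Gpq p' q' →* Multiplicative ℤ :=
    homPQ p' q' 1 (Multiplicative.ofAdd 1) (one_pow _) (comm_rel p' q' _ _)
  let φ₁ : Gpq p' q' →* ℂˣ := (powMonoidHom (p' * q')).comp χ
  let φ₂ : Gpq p' q' →* ℂˣ := (zpowersHom ℂˣ (χ (gtP p' q') ^ (p' * q'))).comp τ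
  have hφ : ∀ g, φ₁ g = φ₂ g := by
    intro g
    refine closure_gen p' q' (MonoidHom.eqLocus φ₁ φ₂) ?_ ?_ g
    · change χ (gaP p' q') ^ (p' * q') = zpowersHom ℂˣ _ (τ (gaP p' q'))
      rw [homPQ_a, map_one, ← map_pow, gaP_pow, map_one]
    · change χ (gtP p' q') ^ (p' * q') = zpowersHom ℂˣ _ (τ (gtP p' q'))
      rw [homPQ_t, zpowersHom_apply]
      simp
  have h1 : τ (e (gaP p q)) = 1 := by
    have h2 : τ (e (gaP p q)) ^ (p * q) = 1 := by
      rw [← map_pow, ← map_pow, gaP_pow, map_one, map_one]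
    have h3 : (p * q : ℕ) • (Multiplicative.toAdd (τ (e (gaP p q)))) = 0 := by
      have := congrArg Multiplicative.toAdd h2
      simpa using this
    have hn : p * q ≠ 0 := pq_ne hp hq
    have h4 : Multiplicative.toAdd (τ (e (gaP p q))) = 0 := by
      rcases smul_eq_zero.mp h3 with h | h
      · exact absurd h hn
      · exact h
    exact Multiplicative.toAdd.injective h4
  have h5 := hφ (e (gaP p q))
  have h6 : φ₁ (e (gaP p q)) = zt (p * q) ^ (p' * q') := by
    change (χ (e (gaP p q))) ^ (p' * q') = _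
    congr 1
    change chiP hp hq (e.symm (e (gaP p q))) = _
    rw [e.symm_apply_apply, chiP_a]
  have h7 : φ₂ (e (gaP p q)) = 1 := by
    change zpowersHom ℂˣ _ (τ (e (gaP p q))) = 1
    rw [h1, map_one]
  rw [h6, h7] at h5
  exact hprim.dvd_of_pow_eq_one _ h5

end Pool.Agent.Y825.CR
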