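import Pool.Agent.Results.MP_8396f3_al.CyclicNotOneRelator
import Pool.Agent.Y825.CR.Core

/-! The relation module of `⟨a, t | a^(pq), [a^p, t a^q t⁻¹]⟩` is cyclic for coprime `p`, `q`. -/

set_option autoImplicit false

namespace Pool.Agent.Y825.CR

open Finset
open Pool.Agent.Results.MP_8396f3_al.CyclicNotOneRelator

/-- The relators `a^(pq)` and `[a^p, t a^q t⁻¹]`. -/
def relsPQ (p q : ℕ) : Set (FreeGroup (Fin 2)) :=
  {A ^ (p * q), A ^ p * (T * A ^ q * T⁻¹) * (A ^ p)⁻¹ * (T * A ^ q * T⁻¹)⁻¹}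

/-- The group `⟨a, t | a^(pq), [a^p, t a^q t⁻¹]⟩`. -/
abbrev Gpq (p q : ℕ) : Type := PresentedGroup (relsPQ p q)

section Mod
variable {F G : Type} [Group F] [Group G] (π : F →* G) (hπ : Function.Surjective π)

lemma cls_congr {f g : F} (hf : f ∈ π.ker) (hg : g ∈ π.ker) (h : f = g) :
    cls π hπ ⟨f, hf⟩ = cls π hπ ⟨g, hg⟩ := by
  subst h
  rfl

lemma cls_conj' (f g : F) (hg : g ∈ π.ker) (h : f * g * f⁻¹ ∈ π.ker) :
    cls π hπ ⟨f * g * f⁻¹, h⟩ = MonoidAlgebra.of ℤ G (π f) • cls π hπ ⟨g, hg⟩ := by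
  rw [← cls_conj]
  congr 1

lemma cls_mul' (f g : F) (hf : f ∈ π.ker) (hg : g ∈ π.ker) (h : f * g ∈ π.ker) :
    cls π hπ ⟨f * g, h⟩ = cls π hπ ⟨f, hf⟩ + cls π hπ ⟨g, hg⟩ := by
  rw [← cls_mul]
  rfl

lemma cls_inv' (f : F) (hf : f ∈ π.ker) (h : f⁻¹ ∈ π.ker) :
    cls π hπ ⟨f⁻¹, h⟩ = - cls π hπ ⟨f, hf⟩ := by
  rw [← cls_inv]
  rfl

variable (X Y : F)

/-- the commutator -/
abbrev cm (X Y : F) : F := X * Y * X⁻¹ * Y⁻¹

lemma cm_mem (h : cm X Y ∈ π.ker) (m n : ℕ) : cm (X ^ m) (Y ^ n) ∈ π.ker := by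
  have h1 : π X * π Y = π Y * π X := by
    have : π X * π Y * (π X)⁻¹ * (π Y)⁻¹ = 1 := by
      rw [MonoidHom.mem_ker] at h
      simpa [cm] using h
    exact mul_inv_eq_iff_eq_mul.mp (mul_inv_eq_one.mp this)
  have h2 : Commute (π X ^ m) (π Y ^ n) := (Commute.pow_pow h1 m n)
  rw [MonoidHom.mem_ker, cm, map_mul, map_mul, map_mul, map_inv, map_inv, map_pow, map_pow,
    h2.eq]
  group

lemma cls_pow_left (h : cm X Y ∈ π.ker) (n : ℕ) (hn : cm (X ^ n) Y ∈ π.ker) :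
    cls π hπ ⟨cm (X ^ n) Y, hn⟩ =
      (∑ k ∈ range n, (MonoidAlgebra.of ℤ G (π X)) ^ k) • cls π hπ ⟨cm X Y, h⟩ := by
  induction n with
  | zero =>
    rw [range_zero, sum_empty, zero_smul, ← cls_one π hπ]
    refine cls_congr π hπ _ _ ?_
    simp [cm]
  | succ n ih =>
    have hn' : cm (X ^ n) Y ∈ π.ker := by
      have := cm_mem π X Y h n 1
      rwa [pow_one] at this
    have e : cm (X ^ (n + 1)) Y = (X * cm (X ^ n) Y * X⁻¹) * cm X Y := by
      simp only [cm, pow_succ']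
      group
    have h2 : X * cm (X ^ n) Y * X⁻¹ ∈ π.ker := (MonoidHom.normal_ker π).conj_mem _ hn' X
    have h3 : (X * cm (X ^ n) Y * X⁻¹) * cm X Y ∈ π.ker := π.ker.mul_mem h2 h
    rw [cls_congr π hπ hn h3 e, cls_mul' π hπ _ _ h2 h h3, cls_conj' π hπ X _ hn' h2, ih hn']
    rw [← mul_smul, mul_sum]
    nth_rw 2 [← one_smul (MonoidAlgebra ℤ G) (cls π hπ ⟨cm X Y, h⟩)]
    rw [← add_smul, sum_range_succ']
    simp only [pow_succ', pow_zero]

lemma cls_pow_right (h : cm X Y ∈ π.ker) (n : ℕ) (hn : cm X (Y ^ n) ∈ π.ker) :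
    cls π hπ ⟨cm X (Y ^ n), hn⟩ =
      (∑ k ∈ range n, (MonoidAlgebra.of ℤ G (π Y)) ^ k) • cls π hπ ⟨cm X Y, h⟩ := by
  induction n with
  | zero =>
    rw [range_zero, sum_empty, zero_smul, ← cls_one π hπ]
    refine cls_congr π hπ _ _ ?_
    simp [cm]
  | succ n ih =>
    have hn' : cm X (Y ^ n) ∈ π.ker := by
      have := cm_mem π X Y h 1 n
      rwa [pow_one] at this
    have e : cm X (Y ^ (n + 1)) = cm X Y * (Y * cm X (Y ^ n) * Y⁻¹) := by
      simp only [cm, pow_succ']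
      group
    have h2 : Y * cm X (Y ^ n) * Y⁻¹ ∈ π.ker := (MonoidHom.normal_ker π).conj_mem _ hn' Y
    have h3 : cm X Y * (Y * cm X (Y ^ n) * Y⁻¹) ∈ π.ker := π.ker.mul_mem h h2
    rw [cls_congr π hπ hn h3 e, cls_mul' π hπ _ _ h h2 h3, cls_conj' π hπ Y _ hn' h2, ih hn']
    rw [← mul_smul, mul_sum]
    nth_rw 1 [← one_smul (MonoidAlgebra ℤ G) (cls π hπ ⟨cm X Y, h⟩)]
    rw [← add_smul, sum_range_succ', add_comm]
    simp only [pow_succ', pow_zero]

end Mod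

lemma ker_mkpq (p q : ℕ) :
    (PresentedGroup.mk (relsPQ p q)).ker = Subgroup.normalClosure (relsPQ p q) := by
  ext g
  exact QuotientGroup.eq_one_iff g

/-- The relation module of `⟨a, t | a^(pq), [a^p, t a^q t⁻¹]⟩` is cyclic. -/
theorem hasCyclicPQ (p q : ℕ) (hp : 0 < p) (hq : 0 < q) (hpq : p.Coprime q) :
    HasCyclicRelationModule (Gpq p q) := by
  classical
  set π := PresentedGroup.mk (relsPQ p q) with hπd
  have hπ : Function.Surjective π := PresentedGroup.mk_surjective (relsPQ p q)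
  set S := MonoidAlgebra ℤ (Gpq p q) with hS
  set X : FreeGroup (Fin 2) := A ^ p with hX
  set Y : FreeGroup (Fin 2) := T * A ^ q * T⁻¹ with hY
  have hA : A ^ (p * q) ∈ π.ker := by
    rw [ker_mkpq]
    exact Subgroup.subset_normalClosure (Or.inl rfl)
  have hC : cm X Y ∈ π.ker := by
    rw [ker_mkpq]
    exact Subgroup.subset_normalClosure (Or.inr rfl)
  have hB : T * A ^ (p * q) * T⁻¹ ∈ π.ker := (MonoidHom.normal_ker π).conj_mem _ hA T
  have hYp : Y ^ p = T * A ^ (p * q) * T⁻¹ := by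
    rw [hY, conj_pow, ← pow_mul, mul_comm q p]
  have hXq : X ^ q = A ^ (p * q) := by rw [hX, ← pow_mul]
  set α := cls π hπ ⟨A ^ (p * q), hA⟩ with hα
  set γ := cls π hπ ⟨cm X Y, hC⟩ with hγ
  set β := cls π hπ ⟨T * A ^ (p * q) * T⁻¹, hB⟩ with hβ
  set x : S := MonoidAlgebra.of ℤ (Gpq p q) (π X) with hx
  set y : S := MonoidAlgebra.of ℤ (Gpq p q) (π Y) with hy
  set t : S := MonoidAlgebra.of ℤ (Gpq p q) (π T) with ht
  set t' : S := MonoidAlgebra.of ℤ (Gpq p q) (π T)⁻¹ with ht'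
  have htt : t' * t = 1 := by
    rw [ht, ht', ← map_mul, inv_mul_cancel, map_one]
  have hxy : x * y = y * x := by
    have : π X * π Y * (π X)⁻¹ * (π Y)⁻¹ = 1 := by
      have h := MonoidHom.mem_ker.mp hC
      simpa [cm] using h
    have h2 : π X * π Y = π Y * π X := mul_inv_eq_iff_eq_mul.mp (mul_inv_eq_one.mp this)
    exact (map_mul (MonoidAlgebra.of ℤ (Gpq p q)) (π X) (π Y)).symm.trans
      ((congrArg _ h2).trans (map_mul (MonoidAlgebra.of ℤ (Gpq p q)) (π Y) (π X)))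
  have hxq : x ^ q = 1 := by
    rw [hx, ← map_pow, ← map_pow, hXq, MonoidHom.mem_ker.mp hA, map_one]
  have hyp : y ^ p = 1 := by
    rw [hy, ← map_pow, ← map_pow, hYp, MonoidHom.mem_ker.mp hB, map_one]
  have hβt : β = t • α := cls_conj' π hπ T _ hA hB
  have hxα : x • α = α := by
    have h2 : X * A ^ (p * q) * X⁻¹ ∈ π.ker := (MonoidHom.normal_ker π).conj_mem _ hA X
    rw [hx, hα, ← cls_conj' π hπ X _ hA h2]
    refine cls_congr π hπ _ _ ?_
    rw [hX, ← pow_add, add_comm, pow_add, mul_inv_cancel_right]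
  have hyβ : y • β = β := by
    have h2 : Y * (T * A ^ (p * q) * T⁻¹) * Y⁻¹ ∈ π.ker :=
      (MonoidHom.normal_ker π).conj_mem _ hB Y
    rw [hy, hβ, ← cls_conj' π hπ Y _ hB h2]
    refine cls_congr π hπ _ _ ?_
    rw [← hYp, ← pow_succ', pow_succ, mul_inv_cancel_right]
  have h3 : α - y • α = (∑ k ∈ range q, x ^ k) • γ := by
    have hn : cm (X ^ q) Y ∈ π.ker := by
      have := cm_mem π X Y hC q 1
      rwa [pow_one] at this
    rw [← cls_pow_left π hπ X Y hC q hn]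
    have hi : (A ^ (p * q))⁻¹ ∈ π.ker := π.ker.inv_mem hA
    have h2 : Y * (A ^ (p * q))⁻¹ * Y⁻¹ ∈ π.ker := (MonoidHom.normal_ker π).conj_mem _ hi Y
    have e : cm (X ^ q) Y = A ^ (p * q) * (Y * (A ^ (p * q))⁻¹ * Y⁻¹) := by
      rw [cm, hXq]
      group
    have h4 : A ^ (p * q) * (Y * (A ^ (p * q))⁻¹ * Y⁻¹) ∈ π.ker := π.ker.mul_mem hA h2
    rw [cls_congr π hπ hn h4 e, cls_mul' π hπ _ _ hA h2 h4, cls_conj' π hπ Y _ hi h2,
      cls_inv' π hπ _ hA hi, smul_neg, sub_eq_add_neg]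
  have h4 : x • β - β = (∑ k ∈ range p, y ^ k) • γ := by
    have hn : cm X (Y ^ p) ∈ π.ker := by
      have := cm_mem π X Y hC 1 p
      rwa [pow_one] at this
    rw [← cls_pow_right π hπ X Y hC p hn]
    have hi : (T * A ^ (p * q) * T⁻¹)⁻¹ ∈ π.ker := π.ker.inv_mem hB
    have h2 : X * (T * A ^ (p * q) * T⁻¹) * X⁻¹ ∈ π.ker :=
      (MonoidHom.normal_ker π).conj_mem _ hB X
    have e : cm X (Y ^ p) = (X * (T * A ^ (p * q) * T⁻¹) * X⁻¹) * (T * A ^ (p * q) * T⁻¹)⁻¹ := by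
      rw [cm, hYp]
    have h5 : (X * (T * A ^ (p * q) * T⁻¹) * X⁻¹) * (T * A ^ (p * q) * T⁻¹)⁻¹ ∈ π.ker :=
      π.ker.mul_mem h2 hi
    rw [cls_congr π hπ hn h5 e, cls_mul' π hπ _ _ h2 hi h5, cls_conj' π hπ X _ hB h2,
      cls_inv' π hπ _ hB hi, sub_eq_add_neg]
  -- i p = 1 + j q
  obtain ⟨i, j, hij⟩ : ∃ i j : ℕ, i * p = 1 + j * q := by
    rcases Nat.lt_or_ge 1 q with h1 | h1
    · obtain ⟨m, hm⟩ := Nat.exists_mul_mod_eq_one_of_coprime hpq h1
      refine ⟨m, p * m / q, ?_⟩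
      have := Nat.mod_add_div (p * m) q
      rw [← hm.2]
      rw [mul_comm m p, mul_comm _ q]
      omega
    · have : q = 1 := by omega
      subst this
      exact ⟨1, p - 1, by omega⟩
  -- the generator
  set δ := (∑ k ∈ range p, (∑ l ∈ range k, x ^ l) * y ^ k) • γ + β +
      ((j : S) * ((∑ k ∈ range p, y ^ k) - p)) • α with hδ
  refine ⟨Fin 2, π, hπ, δ, ?_⟩
  set P : Submodule S (relationModule π hπ).asModule := Submodule.span S {δ} with hP
  have hmem : α ∈ P ∧ γ ∈ P := by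
    have hq0 : ∀ m : (relationModule π hπ).asModule, P.mkQ m = 0 ↔ m ∈ P := fun m => by
      rw [Submodule.mkQ_apply, Submodule.Quotient.mk_eq_zero]
    rw [← hq0, ← hq0]
    refine core' x y hxy (P.mkQ α) (P.mkQ β) (P.mkQ γ) p q i j hij hxq hyp ?_ ?_ ?_ ?_ ?_ ?_
    · rw [← map_smul, hxα]
    · rw [← map_smul, hyβ]
    · rw [← map_smul, ← map_smul, ← map_sub, h3]
    · rw [← map_smul, ← map_smul, ← map_sub, h4]
    · rw [← map_smul, ← map_smul, ← map_add, ← map_add, hq0]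
      exact Submodule.subset_span rfl
    · intro n hn
      have h1 : (n : S) • P.mkQ α = t' • ((n : S) • P.mkQ β) := by
        rw [hβt, map_smul, ← mul_smul, ← mul_smul]
        congr 1
        rw [mul_assoc, (Nat.cast_commute n t).eq, ← mul_assoc, htt, one_mul]
      rw [h1, hn, smul_zero]
  rw [eq_top_iff]
  rintro z -
  obtain ⟨s, rfl⟩ := cls_surj π hπ z
  have hle : π.ker ≤ subOf π hπ P := by
    have hker := ker_mkpq p q
    rw [← hπd] at hker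
    rw [hker]
    have := subOf_normal π hπ P
    apply Subgroup.normalClosure_le_normal
    rintro g (rfl | rfl)
    · exact ⟨hA, hmem.1⟩
    · exact ⟨hC, hmem.2⟩
  obtain ⟨_, h2⟩ := hle s.2
  exact h2

end Pool.Agent.Y825.CR
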